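import Pool.Agent.Run7.h62.PFINAL

/-!
MP_cef6bb_co, Q1, full affirmative answer: for every 3-partite 3-graph `H` the connectedness
parameter of the matching complex satisfies `eta (M (H)) ≥ tau (H) / 4`.

`E` is the finite index set of the edges (repeated edges allowed), `V i` are the three vertex
classes and `H e i` is the vertex of the edge `e` in the class `V i`.
-/

universe u v

theorem Pool.Agent.Results.MP_cef6bb_co.EtaAtLeastQuarterTau.result :
    ∀ (E : Type u) [Fintype E] (V : Fin 3 → Type v) (H : E → ∀ i, V i),
      (Run7.h62.tau H : ℕ∞) ≤ 4 * Run7.h62.eta (Run7.h62.Geo (Run7.h62.matchings H)) :=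
  fun _ _ _ H => Run7.h62.FINAL.quarter H
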